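import Pool.Agent.Helper50.BC.Goals

/-!
# Project BC: the set `X_h` is a compact regular hypersurface
-/

open scoped ContDiff
open Real

namespace Pool.Agent.Helper48.BC

open Pool.Agent.Helper50.BC

/-- The set `X_h` is compact, and the differential of `‖v‖ ^ 2 - h w` is not zero at its points. -/
theorem reg {q : ℕ} (j : ℕ) (h : E q → ℝ) (hh : ContDiff ℝ ∞ h) (hc : IsCompact {w | 0 ≤ h w})
    (hr : ∀ w, h w = 0 → fderiv ℝ h w ≠ 0) :
    IsCompact (XX j h) ∧ ∀ p ∈ XX j h, ∃ ξ, ¬ TT h p ξ := by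
  constructor
  · obtain ⟨M, hM⟩ := hc.bddAbove_image hh.continuous.continuousOn
    have hsub : XX j h ⊆ {w | 0 ≤ h w} ×ˢ Metric.closedBall (0 : E j) (|M| + 1) := by
      intro p hp
      have hp' : ‖p.2‖ ^ 2 = h p.1 := hp
      have h0 : 0 ≤ h p.1 := by rw [← hp']; positivity
      refine ⟨h0, ?_⟩
      rw [mem_closedBall_zero_iff]
      have h1 : h p.1 ≤ M := hM ⟨p.1, h0, rfl⟩
      have h2 := le_abs_self M
      have h3 := abs_nonneg M
      have h4 := norm_nonneg p.2
      nlinarith
    refine (hc.prod (isCompact_closedBall _ _)).of_isClosed_subset ?_ hsub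
    exact isClosed_eq (by fun_prop) (hh.continuous.comp continuous_fst)
  · intro p hp
    have hp' : ‖p.2‖ ^ 2 = h p.1 := hp
    by_cases hv : p.2 = 0
    · have h0 : h p.1 = 0 := by rw [← hp', hv]; simp
      have h1 := hr _ h0
      obtain ⟨u, hu⟩ : ∃ u, fderiv ℝ h p.1 u ≠ 0 := by
        by_contra h2
        push Not at h2
        exact h1 (ContinuousLinearMap.ext h2)
      refine ⟨(u, 0), ?_⟩
      unfold TT
      simpa using fun h3 => hu h3.symm
    · refine ⟨(0, p.2), ?_⟩
      unfold TT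
      simpa using hv

end Pool.Agent.Helper48.BC
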